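import Mathlib
import Pool.Agent.Helper56.RZ.GoalsF
import Pool.Agent.Helper56.RZ.FinK

/-!
# Project RZ5: packet OS5 (oscillation of the splitting at a good point at the scale `ρ^β`)
-/

set_option autoImplicit false

open Set Filter Topology MeasureTheory

open scoped ContDiff

namespace Pool.Agent.Helper89.RZ

open Pool.Agent.Helper56.RZ

/-- numerical estimate at the scale `ρ^β` -/
theorem num5 {ρ d B ε α β θ : ℝ} {r : ℕ} (hρ : 0 < ρ) (hρ1 : ρ ≤ 1) (hd : 0 ≤ d) (hB : 0 ≤ B)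
    (hdB : d ≤ B * ρ ^ r) (hα : 0 < α) (hε : 0 < ε) (hβ1 : β ≤ 1) (h1 : θ ≤ r - 4 * ε)
    (h2 : θ ≤ β * (1 - 4 * ε - α) + r * α) :
    (ρ ^ β) ^ (-(4 * ε)) * d + (ρ ^ β) ^ (1 - 4 * ε) * (d / ρ ^ β) ^ α ≤
      (B + B ^ α) * ρ ^ θ := by
  have hρβ : 0 < ρ ^ β := by positivity
  have e1 : (ρ ^ β) ^ (-(4 * ε)) * d ≤ B * ρ ^ θ := by
    calc (ρ ^ β) ^ (-(4 * ε)) * d ≤ (ρ ^ β) ^ (-(4 * ε)) * (B * ρ ^ r) :=
          mul_le_mul_of_nonneg_left hdB (by positivity)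
      _ = B * (ρ ^ (β * (-(4 * ε))) * ρ ^ (r : ℝ)) := by
          rw [Real.rpow_natCast, Real.rpow_mul hρ.le]; ring
      _ = B * ρ ^ (β * (-(4 * ε)) + r) := by rw [← Real.rpow_add hρ]
      _ ≤ B * ρ ^ θ := by
          refine mul_le_mul_of_nonneg_left ?_ hB
          refine Real.rpow_le_rpow_of_exponent_ge hρ hρ1 ?_
          have h3 : β * (4 * ε) ≤ 1 * (4 * ε) := mul_le_mul_of_nonneg_right hβ1 (by linarith)
          linarith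
  have e2 : (ρ ^ β) ^ (1 - 4 * ε) * (d / ρ ^ β) ^ α ≤ B ^ α * ρ ^ θ := by
    have h3 : d / ρ ^ β ≤ B * ρ ^ ((r : ℝ) - β) := by
      rw [div_le_iff₀ hρβ, mul_assoc, ← Real.rpow_add hρ, sub_add_cancel, Real.rpow_natCast]
      exact hdB
    have h4 : (d / ρ ^ β) ^ α ≤ B ^ α * ρ ^ (((r : ℝ) - β) * α) := by
      calc (d / ρ ^ β) ^ α ≤ (B * ρ ^ ((r : ℝ) - β)) ^ α :=
            Real.rpow_le_rpow (by positivity) h3 hα.le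
        _ = B ^ α * ρ ^ (((r : ℝ) - β) * α) := by
            rw [Real.mul_rpow hB (by positivity), ← Real.rpow_mul hρ.le]
    calc (ρ ^ β) ^ (1 - 4 * ε) * (d / ρ ^ β) ^ α
        ≤ (ρ ^ β) ^ (1 - 4 * ε) * (B ^ α * ρ ^ (((r : ℝ) - β) * α)) :=
          mul_le_mul_of_nonneg_left h4 (by positivity)
      _ = B ^ α * (ρ ^ (β * (1 - 4 * ε)) * ρ ^ (((r : ℝ) - β) * α)) := by
          rw [Real.rpow_mul hρ.le β (1 - 4 * ε)]; ring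
      _ = B ^ α * ρ ^ (β * (1 - 4 * ε) + ((r : ℝ) - β) * α) := by rw [← Real.rpow_add hρ]
      _ ≤ B ^ α * ρ ^ θ := by
          refine mul_le_mul_of_nonneg_left ?_ (by positivity)
          refine Real.rpow_le_rpow_of_exponent_ge hρ hρ1 ?_
          have h3 : β * (1 - 4 * ε) + ((r : ℝ) - β) * α = β * (1 - 4 * ε - α) + r * α := by ring
          linarith
  linarith [add_mul B (B ^ α) (ρ ^ θ)]

theorem os5 (hRG : StmtRG) (hAL : StmtAL) : StmtOS5 := by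
  intro K M hM D P a b c C0 Λ ε C' α Cα β θ CB r hr hspl hL hR hC0 hΛ ha hb hε hbig hα0 hα1 hHol
    hβ0 hβ1 hθ1 hθ2 hCB x0 hfwd hbwd
  have hcM : CompactSpace M := isCompact_iff_compactSpace.1 hM
  obtain ⟨C1, ρ1, hC1, hρ1, hρ11, e1⟩ := hRG K M hM D (fun i (x : M) => P i x) a b c C0 Λ ε C' α
    Cα CB hspl hL hR hC0 hΛ ha hε hbig hα0 hα1 hHol hCB
  obtain ⟨C2, ρ2, hC2, hρ2, hρ21, e2⟩ := hRG K M hM D.inv (fun i (x : M) => P (2 - i) x) _ _ _ C0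
    Λ ε C' α Cα CB hspl.inv' hL.inv hR.inv hC0 hΛ (fun x => hb _) hε hbig hα0 hα1
    (fun i x y => hHol _ x y) hCB
  obtain ⟨R, hR1, hRb⟩ := exists_bd3 _ hspl.cont
  obtain ⟨L, hL0, hLip⟩ := hL.lip
  have hB : 0 < CB := by linarith
  obtain ⟨G, hG⟩ : ∃ G : ℝ, G = 2 * R * (L * CB) + 4 * R * ((C1 + C2) * (CB + CB ^ α)) := ⟨_, rfl⟩
  have hG0 : 0 ≤ G := by rw [hG]; positivity
  refine ⟨G, min (min (ρ1 ^ (1 / β)) (ρ2 ^ (1 / β))) (1 / CB), hG0,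
    lt_min (lt_min (by positivity) (by positivity)) (by positivity), ?_, ?_⟩
  · refine (min_le_right _ _).trans ?_
    rw [div_le_one hB]
    exact hCB
  intro ρ hρ hρm x hx y hy hxx hyx hxy i
  have m1 : ρ ^ β ≤ ρ1 := by
    calc ρ ^ β ≤ (ρ1 ^ (1 / β)) ^ β := Real.rpow_le_rpow hρ.le
          (hρm.trans ((min_le_left _ _).trans (min_le_left _ _))) hβ0.le
      _ = ρ1 := by rw [← Real.rpow_mul hρ1.le, one_div_mul_cancel hβ0.ne', Real.rpow_one]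
  have m2 : ρ ^ β ≤ ρ2 := by
    calc ρ ^ β ≤ (ρ2 ^ (1 / β)) ^ β := Real.rpow_le_rpow hρ.le
          (hρm.trans ((min_le_left _ _).trans (min_le_right _ _))) hβ0.le
      _ = ρ2 := by rw [← Real.rpow_mul hρ2.le, one_div_mul_cancel hβ0.ne', Real.rpow_one]
  have m3 : ρ ≤ 1 / CB := hρm.trans (min_le_right _ _)
  have hρle : ρ ≤ 1 := by
    refine m3.trans ?_
    rw [div_le_one hB]
    exact hCB
  have hρβ : 0 < ρ ^ β := by positivity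
  have hρβ' : ρ ≤ ρ ^ β := by
    calc ρ = ρ ^ (1 : ℝ) := (Real.rpow_one ρ).symm
      _ ≤ ρ ^ β := Real.rpow_le_rpow_of_exponent_ge hρ hρle hβ1
  have hd := norm_nonneg (x - y)
  -- the distance is at most `ρ^β`
  have hdρ : ‖x - y‖ ≤ ρ ^ β := by
    refine (hxy.trans ?_).trans hρβ'
    obtain ⟨s, hs⟩ : ∃ s : ℕ, r = s + 2 := ⟨r - 2, by omega⟩
    rw [hs, pow_add, sq]
    have h6 : ρ ^ s ≤ 1 := pow_le_one₀ hρ.le hρle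
    rw [le_div_iff₀ hB] at m3
    calc CB * (ρ ^ s * (ρ * ρ)) = ρ ^ s * ((ρ * CB) * ρ) := by ring
      _ ≤ 1 * (1 * ρ) := by
          refine mul_le_mul h6 (mul_le_mul_of_nonneg_right m3 hρ.le) (by positivity) (by norm_num)
      _ = ρ := by ring
  have hn := num5 (ρ := ρ) (d := ‖x - y‖) (B := CB) (ε := ε) (α := α) (β := β) (θ := θ) (r := r)
    hρ hρle hd hB.le hxy hα0 hε hβ1 hθ1 hθ2
  have hdρ' : ‖y - x‖ ≤ ρ ^ β := by rw [norm_sub_rev]; exact hdρ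
  have a1 := e1 x0 hfwd (ρ ^ β) hρβ m1 ⟨x, hx⟩ ⟨y, hy⟩ hxx hyx hdρ
  have a2 := e2 x0 hbwd (ρ ^ β) hρβ m2 ⟨x, hx⟩ ⟨y, hy⟩ hxx hyx hdρ
  have a3 := e1 x0 hfwd (ρ ^ β) hρβ m1 ⟨y, hy⟩ ⟨x, hx⟩ hyx hxx hdρ'
  have a4 := e2 x0 hbwd (ρ ^ β) hρβ m2 ⟨y, hy⟩ ⟨x, hx⟩ hyx hxx hdρ'
  simp only [norm_sub_rev y x] at a3 a4
  obtain ⟨Y, hY⟩ : ∃ Y : ℝ, Y = (C1 + C2) * ((CB + CB ^ α) * ρ ^ θ) := ⟨_, rfl⟩
  have hW : 0 ≤ (CB + CB ^ α) * ρ ^ θ := by positivity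
  have s1 : C1 * ((ρ ^ β) ^ (-(4 * ε)) * ‖x - y‖ +
      (ρ ^ β) ^ (1 - 4 * ε) * (‖x - y‖ / ρ ^ β) ^ α) ≤ Y := by
    rw [hY]
    refine (mul_le_mul_of_nonneg_left hn hC1).trans (mul_le_mul_of_nonneg_right ?_ hW)
    linarith
  have s2 : C2 * ((ρ ^ β) ^ (-(4 * ε)) * ‖x - y‖ +
      (ρ ^ β) ^ (1 - 4 * ε) * (‖x - y‖ / ρ ^ β) ^ α) ≤ Y := by
    rw [hY]
    refine (mul_le_mul_of_nonneg_left hn hC2).trans (mul_le_mul_of_nonneg_right ?_ hW)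
    linarith
  have key := diff_of hAL hspl hRb ⟨x, hx⟩ ⟨y, hy⟩ Y ⟨a1.1.trans s1, a1.2.trans s1⟩
    ⟨a2.1.trans s2, a2.2.trans s2⟩ ⟨a3.1.trans s1, a3.2.trans s1⟩
    ⟨a4.1.trans s2, a4.2.trans s2⟩ i
  have hT := (hLip ⟨x, hx⟩ ⟨y, hy⟩).2.2
  have hθle : ρ ^ r ≤ ρ ^ θ := by
    rw [← Real.rpow_natCast]
    exact Real.rpow_le_rpow_of_exponent_ge hρ hρle (by linarith)
  have h6 : ‖D.T ⟨x, hx⟩ - D.T ⟨y, hy⟩‖ ≤ L * CB * ρ ^ θ := by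
    calc ‖D.T ⟨x, hx⟩ - D.T ⟨y, hy⟩‖ ≤ L * ‖x - y‖ := hT
      _ ≤ L * (CB * ρ ^ r) := mul_le_mul_of_nonneg_left hxy hL0
      _ ≤ L * (CB * ρ ^ θ) :=
          mul_le_mul_of_nonneg_left (mul_le_mul_of_nonneg_left hθle hB.le) hL0
      _ = L * CB * ρ ^ θ := by ring
  have h7 : 0 ≤ 2 * R := by linarith
  calc ‖P i x - P i y‖ ≤ 2 * R * ‖D.T ⟨x, hx⟩ - D.T ⟨y, hy⟩‖ + 4 * R * Y := key
    _ ≤ 2 * R * (L * CB * ρ ^ θ) + 4 * R * Y := by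
        linarith [mul_le_mul_of_nonneg_left h6 h7]
    _ = G * ρ ^ θ := by rw [hY, hG]; ring

end Pool.Agent.Helper89.RZ
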