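import Pool.Agent.Helper56.RZ.GoalsC

/-!
# Project RZ2 (MP_f32c9c_an), packet PW: powers of a cocycle
-/

set_option autoImplicit false

namespace Pool.Agent.Helper89.RZ

open Pool.Agent.Helper56.RZ

variable {X : Type} [TopologicalSpace X] {K : ℕ}

theorem An_succ' (C : Coc X K) (n : ℕ) (x : X) : C.An (n + 1) x = C.An n (C.f x) * C.A x := by
  induction n with
  | zero =>
    change C.A x * C.T x = C.T (C.f x) * C.A x
    rw [C.AT, C.TA]
  | succ n ih =>
    change C.A (C.f^[n + 1] x) * C.An (n + 1) x = C.A (C.f^[n] (C.f x)) * C.An n (C.f x) * C.A x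
    rw [ih, Function.iterate_succ_apply, mul_assoc]

theorem T_An (C : Coc X K) (n : ℕ) (x : X) : C.T (C.f^[n] x) * C.An n x = C.An n x := by
  cases n with
  | zero => exact C.TT x
  | succ n =>
    change C.T (C.f^[n + 1] x) * (C.A (C.f^[n] x) * C.An n x) = C.A (C.f^[n] x) * C.An n x
    rw [Function.iterate_succ_apply', ← mul_assoc, C.TA]

theorem An_add (C : Coc X K) (k l : ℕ) (x : X) :
    C.An (k + l) x = C.An l (C.f^[k] x) * C.An k x := by
  induction l with
  | zero =>
    change C.An k x = C.T (C.f^[k] x) * C.An k x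
    rw [T_An]
  | succ l ih =>
    change C.A (C.f^[k + l] x) * C.An (k + l) x = C.A (C.f^[l] (C.f^[k] x)) * C.An l (C.f^[k] x)
      * C.An k x
    rw [ih, ← Function.iterate_add_apply, add_comm l k, mul_assoc]

/-- the identity cocycle -/
def idC (C : Coc X K) : Coc X K where
  f := Homeomorph.refl X
  A := C.T
  B := C.T
  T := C.T
  contA := C.contT
  contB := C.contT
  contT := C.contT
  TT := C.TT
  AT := C.TT
  TA := C.TT
  BT := C.TT
  TB := C.TT
  BA := C.TT
  AB := C.TT

/-- powers -/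
def pwS (C : Coc X K) : ℕ → {D : Coc X K // D.T = C.T}
  | 0 => ⟨idC C, rfl⟩
  | m + 1 => ⟨C.comp (pwS C m).1 (pwS C m).2, rfl⟩

theorem isPow (C : Coc X K) (m : ℕ) : IsPow C (pwS C m).1 m := by
  induction m with
  | zero => exact ⟨fun _ => rfl, fun _ => rfl, fun _ => rfl, fun _ => rfl, fun _ => rfl⟩
  | succ m ih =>
    refine ⟨fun _ => rfl, fun x => ?_, fun x => ?_, fun x => ?_, fun x => ?_⟩
    · change C.f ((pwS C m).1.f x) = _
      rw [ih.f, Function.iterate_succ_apply']
    · change (pwS C m).1.f.symm (C.f.symm x) = _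
      rw [ih.f', Function.iterate_succ_apply]
    · change C.A ((pwS C m).1.f x) * (pwS C m).1.A x = C.A (C.f^[m] x) * C.An m x
      rw [ih.f, ih.A]
    · change (pwS C m).1.B (C.f.symm x) * C.B x = C.inv.An (m + 1) x
      rw [ih.B, An_succ' C.inv]
      rfl

theorem spl_An {C : Coc X K} {P : Fin 3 → X → End K} (h : Spl C P) (i : Fin 3) (m : ℕ) (x : X) :
    C.An m x * P i x = P i (C.f^[m] x) * C.An m x := by
  induction m with
  | zero =>
    change C.T x * P i x = P i x * C.T x
    rw [← h.sum x, add_mul, add_mul, mul_add, mul_add]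
    simp only [h.proj x]
    fin_cases i <;> simp
  | succ m ih =>
    change C.A (C.f^[m] x) * C.An m x * P i x = P i (C.f^[m + 1] x) * (C.A (C.f^[m] x) * C.An m x)
    rw [mul_assoc, ih, ← mul_assoc, h.inv, Function.iterate_succ_apply', mul_assoc]

theorem iter_f {C D : Coc X K} {m : ℕ} (h : ∀ x, D.f x = C.f^[m] x) (n : ℕ) (x : X) :
    D.f^[n] x = C.f^[n * m] x := by
  have h1 : (D.f : X → X) = C.f^[m] := funext h
  rw [h1, ← Function.iterate_mul, mul_comm]

theorem iter_An {C D : Coc X K} {m : ℕ} (hT : ∀ x, D.T x = C.T x) (h : ∀ x, D.f x = C.f^[m] x)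
    (hA : ∀ x, D.A x = C.An m x) (n : ℕ) (x : X) : D.An n x = C.An (n * m) x := by
  induction n with
  | zero =>
    rw [zero_mul]
    exact hT x
  | succ n ih =>
    change D.A (D.f^[n] x) * D.An n x = _
    rw [ih, hA, iter_f h, Nat.succ_mul, An_add]

/-- Packet PW. -/
theorem pw : StmtPW := by
  intro X _ K C m
  have h := isPow C m
  refine ⟨(pwS C m).1, h, ?_, ?_⟩
  · intro P hP
    refine ⟨hP.cont, hP.proj, ?_, hP.ne, ?_⟩
    · intro x
      rw [h.T]
      exact hP.sum x
    · intro x i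
      rw [h.A, h.f]
      exact spl_An hP i m x
  · intro n x
    refine ⟨iter_f h.f n x, ?_, iter_An h.T h.f h.A n x, ?_⟩
    · exact iter_f (C := C.inv) (D := (pwS C m).1.inv) h.f' n x
    · exact iter_An (C := C.inv) (D := (pwS C m).1.inv) h.T h.f' h.B n x

end Pool.Agent.Helper89.RZ
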