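import Pool.Agent.Helper56.RZ.GoalsD

/-!
Project RZ (MP_f32c9c_an), packet SF (the symmetric formula).
-/

set_option autoImplicit false

open Set Filter Topology MeasureTheory

open scoped ContDiff

namespace Pool.Agent.Helper89.RZ

open Pool.Agent.Helper56.RZ

theorem dt_ne_zero {K : ℕ} {A : End K} (h : IsUnit A) : dt A ≠ 0 := by
  have h1 : IsUnit (A : E K →ₗ[ℝ] E K) :=
    h.map (ContinuousLinearMap.toLinearMapRingHom (R₁ := ℝ) (M₁ := E K))
  exact (LinearMap.isUnit_det _ h1).ne_zero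

theorem dt_close {K : ℕ} (P Q : End K) (R e : ℝ) (hP : P * P = P) (hPn : ‖P‖ ≤ R)
    (hQ : ‖P - Q‖ ≤ e) (he : R * e * R < 1) : dt (P * Q * P + 1 - P) ≠ 0 := by
  have h1 : P * Q * P + 1 - P = 1 - P * (P - Q) * P := by
    have h2 : P * (P - Q) * P = P * P * P - P * Q * P := by rw [mul_sub, sub_mul]
    rw [h2, hP, hP]
    abel
  rw [h1]
  refine dt_ne_zero (isUnit_one_sub_of_norm_lt_one ?_)
  have hR : 0 ≤ R := (norm_nonneg P).trans hPn
  calc ‖P * (P - Q) * P‖ ≤ ‖P‖ * ‖P - Q‖ * ‖P‖ := by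
        refine (norm_mul_le _ _).trans ?_
        exact mul_le_mul_of_nonneg_right (norm_mul_le _ _) (norm_nonneg _)
    _ ≤ R * e * R := by
        refine mul_le_mul (mul_le_mul hPn hQ (norm_nonneg _) hR) hPn (norm_nonneg _) ?_
        exact mul_nonneg hR ((norm_nonneg _).trans hQ)
    _ < 1 := he

theorem cont_dt {Ω : Type} [TopologicalSpace Ω] {K : ℕ} {A : Ω → End K} (h : Continuous A) :
    Continuous (fun w => dt (A w)) :=
  ContinuousLinearMap.continuous_det.comp h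

/-- bound for the middle operator -/
theorem mid_close {K : ℕ} (P P' D D' : End K) (R e : ℝ) (he : 0 ≤ e) (he1 : e ≤ 1)
    (hP' : ‖P'‖ ≤ R) (hPP : ‖P' - P‖ ≤ 2 * e) (hD : ‖D - 1‖ ≤ e) (hD' : ‖D' - 1‖ ≤ e) :
    ‖P - D' * P' * D‖ ≤ (3 * R + 2) * e := by
  have hR : 0 ≤ R := (norm_nonneg P').trans hP'
  have h1 : P - D' * P' * D = -((D' - 1) * P' * D) - P' * (D - 1) - (P' - P) := by
    rw [sub_mul, sub_mul, mul_sub, one_mul, mul_one]
    abel
  have hDn : ‖D‖ ≤ 2 := by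
    have h2 : D = (D - 1) + 1 := by abel
    have h3 : ‖(1 : End K)‖ ≤ 1 := ContinuousLinearMap.norm_id_le
    calc ‖D‖ = ‖(D - 1) + 1‖ := by rw [← h2]
      _ ≤ ‖D - 1‖ + ‖(1 : End K)‖ := norm_add_le _ _
      _ ≤ 2 := by linarith
  have h2 : ‖(D' - 1) * P' * D‖ ≤ e * R * 2 := by
    refine (norm_mul_le _ _).trans ?_
    refine mul_le_mul ((norm_mul_le _ _).trans (mul_le_mul hD' hP' (norm_nonneg _) he)) hDn
      (norm_nonneg _) (mul_nonneg he hR)
  have h3 : ‖P' * (D - 1)‖ ≤ R * e :=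
    (norm_mul_le _ _).trans (mul_le_mul hP' hD (norm_nonneg _) hR)
  rw [h1]
  calc ‖-((D' - 1) * P' * D) - P' * (D - 1) - (P' - P)‖
      ≤ ‖-((D' - 1) * P' * D) - P' * (D - 1)‖ + ‖P' - P‖ := norm_sub_le _ _
    _ ≤ (‖-((D' - 1) * P' * D)‖ + ‖P' * (D - 1)‖) + ‖P' - P‖ := by
        gcongr
        exact norm_sub_le _ _
    _ ≤ (e * R * 2 + R * e) + 2 * e := by
        rw [norm_neg]
        gcongr
    _ = (3 * R + 2) * e := by ring

/-- the local functional depends continuously on the data -/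
theorem ps_cont {Ω : Type} [TopologicalSpace Ω] {N : ℕ} (p : Fin 3 → End N) (R e : ℝ)
    (he : 0 ≤ e) (he1 : e ≤ 1) (hR : ∀ i, ‖p i‖ + 1 ≤ R) (hRe : R * ((3 * R + 2) * e) * R < 1)
    (P P' : Fin 3 → Ω → End N) (D D' : Ω → End N) (hPc : ∀ i, Continuous (P i))
    (hPc' : ∀ i, Continuous (P' i)) (hDc : Continuous D) (hDc' : Continuous D')
    (hP3 : ∀ w, Proj3 (fun i => P i w))
    (hP : ∀ i w, ‖P i w - p i‖ ≤ e) (hP' : ∀ i w, ‖P' i w - p i‖ ≤ e)
    (hD : ∀ w, ‖D w - 1‖ ≤ e) (hD' : ∀ w, ‖D' w - 1‖ ≤ e) :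
    Continuous (fun w => Ps (fun i => P i w) (fun i => D' w * P' i w * D w)) := by
  have hn : ∀ (F : Fin 3 → Ω → End N), (∀ i w, ‖F i w - p i‖ ≤ e) → ∀ i w, ‖F i w‖ ≤ R := by
    intro F hF i w
    have h2 : F i w = (F i w - p i) + p i := by abel
    calc ‖F i w‖ = ‖(F i w - p i) + p i‖ := by rw [← h2]
      _ ≤ ‖F i w - p i‖ + ‖p i‖ := norm_add_le _ _
      _ ≤ R := by linarith [hF i w, hR i]
  have h1 : ∀ i, Continuous (fun w => Ph (P i w) (D' w * P' i w * D w)) := by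
    intro i
    unfold Ph
    have h2 : Continuous (fun w => dt (P i w * (D' w * P' i w * D w) * P i w + 1 - P i w)) := by
      refine cont_dt ?_
      have hPi := hPc i
      have hPi' := hPc' i
      fun_prop
    refine h2.abs.log ?_
    intro w
    rw [abs_ne_zero]
    refine dt_close _ _ R ((3 * R + 2) * e) ?_ (hn P hP i w) ?_ hRe
    · have := (hP3 w).proj i i
      simpa using this
    · refine mid_close _ _ _ _ R e he he1 (hn P' hP' i w) ?_ (hD w) (hD' w)
      have h3 : P' i w - P i w = (P' i w - p i) - (P i w - p i) := by abel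
      rw [h3]
      refine (norm_sub_le _ _).trans ?_
      linarith [hP i w, hP' i w]
  unfold Ps
  exact (h1 0).sub (h1 2)

/-- integrability on a strip -/
theorem strip_int {N : ℕ} {f : E N → E N → ℝ} (hf : Continuous (Function.uncurry f))
    {K B : Set (E N)} (hK : IsCompact K) (hB : IsCompact B)
    (h0 : ∀ s ∈ B, ∀ z, z ∉ K → f z s = 0) :
    Integrable (Function.uncurry f)
      ((volume : Measure (E N)).prod ((volume : Measure (E N)).restrict B)) := by
  have h1 : IntegrableOn (Function.uncurry f) (K ×ˢ B)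
      ((volume : Measure (E N)).prod (volume : Measure (E N))) :=
    hf.continuousOn.integrableOn_compact (hK.prod hB)
  have h2 : IntegrableOn (Function.uncurry f) (univ ×ˢ B)
      ((volume : Measure (E N)).prod (volume : Measure (E N))) := by
    refine h1.of_forall_sdiff_eq_zero (MeasurableSet.univ.prod hB.measurableSet) ?_
    rintro ⟨z, s⟩ ⟨⟨-, hs⟩, hzs⟩
    refine h0 s hs z fun hz => hzs ⟨hz, hs⟩
  have h3 : (volume : Measure (E N)).prod ((volume : Measure (E N)).restrict B) =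
      ((volume : Measure (E N)).prod (volume : Measure (E N))).restrict (univ ×ˢ B) := by
    rw [← Measure.prod_restrict, Measure.restrict_univ]
  rw [h3]
  exact h2

theorem strip_swap {N : ℕ} {f : E N → E N → ℝ} (hf : Continuous (Function.uncurry f))
    {K B : Set (E N)} (hK : IsCompact K) (hB : IsCompact B)
    (h0 : ∀ s ∈ B, ∀ z, z ∉ K → f z s = 0) :
    ∫ z, ∫ s in B, f z s = ∫ s in B, ∫ z, f z s :=
  integral_integral_swap (strip_int hf hK hB h0)

theorem strip_on {N : ℕ} {f : E N → E N → ℝ} (hf : Continuous (Function.uncurry f))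
    {K B : Set (E N)} (hK : IsCompact K) (hB : IsCompact B)
    (h0 : ∀ s ∈ B, ∀ z, z ∉ K → f z s = 0) : IntegrableOn (fun s => ∫ z, f z s) B :=
  (strip_int hf hK hB h0).integral_prod_right

theorem strip_pt {N : ℕ} {f : E N → E N → ℝ} (hf : Continuous (Function.uncurry f))
    {K B : Set (E N)} (hK : IsCompact K)
    (h0 : ∀ s ∈ B, ∀ z, z ∉ K → f z s = 0) (s : E N) (hs : s ∈ B) :
    Integrable (fun z => f z s) := by
  refine Continuous.integrable_of_hasCompactSupport ?_ ?_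
  · exact hf.comp (Continuous.prodMk continuous_id continuous_const)
  · exact HasCompactSupport.intro hK fun z hz => h0 s hs z hz

/-- substitution by a volume preserving homeomorphism of the compact set -/
theorem sub_int {N : ℕ} (f g : E N → E N) (hf : Continuous f) (hg : Continuous g)
    (hgf : ∀ z, g (f z) = z) (hfg : ∀ z, f (g z) = z)
    (hv : ∀ A : Set (E N), MeasurableSet A → volume (f '' A) = volume A)
    (B : Set (E N)) (hB : ∀ z, f z ∈ B ↔ z ∈ B) (Φ : E N → ℝ) :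
    ∫ s in B, Φ (f s) = ∫ s in B, Φ s := by
  let e : E N ≃ₜ E N := ⟨⟨f, g, hgf, hfg⟩, hf, hg⟩
  have hmp : MeasurePreserving f volume volume := by
    refine ⟨hf.measurable, ?_⟩
    ext A hA
    rw [Measure.map_apply hf.measurable hA, ← hv _ (hf.measurable hA)]
    congr 1
    exact image_preimage_eq A (fun z => ⟨g z, hfg z⟩)
  have h1 := hmp.setIntegral_preimage_emb e.measurableEmbedding Φ B
  have hpre : f ⁻¹' B = B := by
    ext z
    exact hB z
  rw [hpre] at h1
  exact h1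

section Main

variable {N : ℕ} {p : Fin 3 → End N} (d : Tw N p)

theorem ha_cont {a : ℝ → ℝ} (h : ContDiff ℝ ∞ (fun x : ℝ × E N => d.Ha a x.1 x.2)) (t : ℝ) :
    ContDiff ℝ ∞ (d.Ha a t) :=
  h.comp (contDiff_const.prodMk contDiff_id)

theorem ha_chain {a : ℝ → ℝ} (h : ContDiff ℝ ∞ (fun x : ℝ × E N => d.Ha a x.1 x.2))
    (hi : ∀ t z, d.Ha a (-t) (d.Ha a t z) = z) (t : ℝ) (s : E N) :
    fderiv ℝ (d.Ha a (-t)) (d.Ha a t s) * fderiv ℝ (d.Ha a t) s = 1 := by
  have h1 : HasFDerivAt (d.Ha a t) (fderiv ℝ (d.Ha a t) s) s :=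
    ((ha_cont d h t).differentiable (by simp) s).hasFDerivAt
  have h2 : HasFDerivAt (d.Ha a (-t)) (fderiv ℝ (d.Ha a (-t)) (d.Ha a t s)) (d.Ha a t s) :=
    ((ha_cont d h (-t)).differentiable (by simp) _).hasFDerivAt
  have h3 := h2.comp s h1
  have h4 : (d.Ha a (-t)) ∘ (d.Ha a t) = id := by
    funext z
    exact hi t z
  rw [h4] at h3
  exact h3.unique (hasFDerivAt_id s)

theorem ha_chain' {a : ℝ → ℝ} (h : ContDiff ℝ ∞ (fun x : ℝ × E N => d.Ha a x.1 x.2))
    (hi : ∀ t z, d.Ha a (-t) (d.Ha a t z) = z) (t : ℝ) (s : E N) :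
    fderiv ℝ (d.Ha a t) s * fderiv ℝ (d.Ha a (-t)) (d.Ha a t s) = 1 := by
  have h1 := ha_chain d h hi (-t) (d.Ha a t s)
  rwa [neg_neg, hi] at h1

theorem ha_odd {a : ℝ → ℝ} (h : ContDiff ℝ ∞ (fun x : ℝ × E N => d.Ha a x.1 x.2))
    (ho : ∀ t z, d.Ha a t (-z) = - d.Ha a t z) (t : ℝ) (s : E N) :
    fderiv ℝ (d.Ha a t) (-s) = fderiv ℝ (d.Ha a t) s := by
  have h1 : HasFDerivAt (d.Ha a t) (fderiv ℝ (d.Ha a t) s) s :=
    ((ha_cont d h t).differentiable (by simp) s).hasFDerivAt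
  have h2 : HasFDerivAt (d.Ha a t) (fderiv ℝ (d.Ha a t) (-s)) (-s) :=
    ((ha_cont d h t).differentiable (by simp) _).hasFDerivAt
  have h3 : HasFDerivAt (fun z : E N => -z) (-(ContinuousLinearMap.id ℝ (E N))) s :=
    (hasFDerivAt_id s).neg
  have h4 := h2.comp s h3
  have h5 : (d.Ha a t) ∘ (fun z : E N => -z) = fun z => - d.Ha a t z := by
    funext z
    exact ho t z
  rw [h5] at h4
  have h6 := h4.unique h1.neg
  ext v : 1
  have h7 := congrArg (fun L : E N →L[ℝ] E N => L v) h6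
  simpa using h7

/-- continuity of the integrand of the right hand side -/
theorem kk_cont (R e : ℝ) (he : 0 ≤ e) (he1 : e ≤ 1) (hR : ∀ i, ‖p i‖ + 1 ≤ R)
    (hRe : R * ((3 * R + 2) * e) * R < 1) (χ : E N → ℝ) (hχ : Continuous χ)
    (ph : Fin 3 → E N → End N) (hph3 : ∀ z, Proj3 (fun i => ph i z))
    (hphc : ∀ i, Continuous (ph i)) (hphn : ∀ i z, ‖ph i z - p i‖ ≤ e)
    (t' : ℝ) (cH : ∀ t', Continuous (d.Ha th t'))
    (cF : ∀ t', Continuous (fderiv ℝ (d.Ha th2 t'))) (cX : Continuous d.X)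
    (hD : ∀ z, ‖fderiv ℝ (d.Ha th2 t') z - 1‖ ≤ e)
    (hD' : ∀ z, ‖fderiv ℝ (d.Ha th2 (-t')) z - 1‖ ≤ e) (ρ' v : ℝ) :
    Continuous (fun w : E N × E N =>
      kk χ d ρ' t' w.1 w.2 (fun i => ph i w.1) (fun i => ph i (w.1 + v • d.X w.2))) := by
  have c0 := cH (-t')
  have hv : Continuous (fun w : E N × E N => w.1 + v • d.X w.2) := by fun_prop
  have h1 : Continuous (fun w : E N × E N => χ (w.1 - ρ' • d.Ha th (-t') w.2)) :=
    hχ.comp (by fun_prop)
  have h2 := ps_cont (Ω := E N × E N) p R e he he1 hR hRe (fun i w => ph i w.1)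
      (fun i w => ph i (w.1 + v • d.X w.2)) (fun w => fderiv ℝ (d.Ha th2 t') (d.Ha th (-t') w.2))
      (fun w => fderiv ℝ (d.Ha th2 (-t')) (d.Ha th (- -t') w.2))
      (fun i => (hphc i).comp continuous_fst)
      (fun i => (hphc i).comp hv)
      ((cF t').comp ((cH _).comp continuous_snd))
      ((cF _).comp ((cH _).comp continuous_snd))
      (fun w => hph3 w.1)
      (fun i w => hphn i _)
      (fun i w => hphn i _)
      (fun w => hD _)
      (fun w => hD' _)
  exact h1.mul h2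

/-- continuity of the integrand of the left hand side -/
theorem fl_cont (R e : ℝ) (he : 0 ≤ e) (he1 : e ≤ 1) (hR : ∀ i, ‖p i‖ + 1 ≤ R)
    (hRe : R * ((3 * R + 2) * e) * R < 1) (χ : E N → ℝ) (hχ : Continuous χ)
    (ph : Fin 3 → E N → End N) (hph3 : ∀ z, Proj3 (fun i => ph i z))
    (hphc : ∀ i, Continuous (ph i)) (hphn : ∀ i z, ‖ph i z - p i‖ ≤ e)
    (t : ℝ) (cH : ∀ t', Continuous (d.Ha th2 t'))
    (cF : ∀ t', Continuous (fderiv ℝ (d.Ha th2 t')))
    (hD : ∀ z, ‖fderiv ℝ (d.Ha th2 t) z - 1‖ ≤ e)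
    (hD' : ∀ z, ‖fderiv ℝ (d.Ha th2 (-t)) z - 1‖ ≤ e) (ρ : ℝ) :
    Continuous (fun w : E N × E N => χ w.1 * Fl d ph ρ t w.1 w.2) := by
  have c0 := cH t
  have hv1 : Continuous (fun w : E N × E N => w.1 + ρ • w.2) := by fun_prop
  have hv2 : Continuous (fun w : E N × E N => w.1 + ρ • d.Ha th2 t w.2) := by fun_prop
  have h1 : Continuous (fun w : E N × E N => χ w.1) := hχ.comp continuous_fst
  have h2 := ps_cont (Ω := E N × E N) p R e he he1 hR hRe (fun i w => ph i (w.1 + ρ • w.2))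
      (fun i w => ph i (w.1 + ρ • d.Ha th2 t w.2)) (fun w => fderiv ℝ (d.Ha th2 t) w.2)
      (fun w => fderiv ℝ (d.Ha th2 (-t)) (d.Ha th2 t w.2))
      (fun i => (hphc i).comp hv1)
      (fun i => (hphc i).comp hv2)
      ((cF t).comp continuous_snd)
      ((cF _).comp ((cH _).comp continuous_snd))
      (fun w => hph3 _)
      (fun i w => hphn i _)
      (fun i w => hphn i _)
      (fun w => hD _)
      (fun w => hD' _)
  exact h1.mul h2

end Main

/-- **Packet SF** -/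
theorem sf (hTL : StmtTL) (hTA : StmtTA) (hTV : StmtTV) (hTE : StmtTE) (hSM : StmtSM)
    (hF1 : StmtF1) : StmtSF := by
  intro N p hp d
  obtain ⟨hth, hth2, -, hL0⟩ := hTL
  obtain ⟨sm1, q1, inv1, -, -, -, qn⟩ := hTA N p hp d th hth
  obtain ⟨sm2, q2, inv2, -, -, odd2, -⟩ := hTA N p hp d th2 hth2
  have hL := hL0 N p hp d
  have hV := hTV N p hp d th hth
  obtain ⟨c, hc1, hc⟩ := hTE N p hp d th2 hth2
  obtain ⟨-, smX, smq, -, -, -, -, c1, hc11, hq⟩ := (hF1 N p hp).2 d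
  have hR0 : 1 ≤ 1 + ‖p 0‖ + ‖p 1‖ + ‖p 2‖ := by
    have h0 := norm_nonneg (p 0)
    have h1 := norm_nonneg (p 1)
    have h2 := norm_nonneg (p 2)
    linarith
  obtain ⟨R, hRdef⟩ : ∃ R : ℝ, R = 1 + ‖p 0‖ + ‖p 1‖ + ‖p 2‖ := ⟨_, rfl⟩
  rw [← hRdef] at hR0
  have hRi : ∀ i, ‖p i‖ + 1 ≤ R := by
    intro i
    have h0 := norm_nonneg (p 0)
    have h1 := norm_nonneg (p 1)
    have h2 := norm_nonneg (p 2)
    fin_cases i
    · change ‖p 0‖ + 1 ≤ R
      linarith
    · change ‖p 1‖ + 1 ≤ R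
      linarith
    · change ‖p 2‖ + 1 ≤ R
      linarith
  obtain ⟨δ, hδ, hS⟩ := hSM N R
  have hRR : 0 < R * (3 * R + 2) * R := by positivity
  obtain ⟨e, hedef⟩ : ∃ e : ℝ, e = min 1 (min (δ / 2) (1 / (2 * (R * (3 * R + 2) * R)))) :=
    ⟨_, rfl⟩
  have he0 : 0 < e := by
    rw [hedef]
    positivity
  have he1 : e ≤ 1 := by
    rw [hedef]
    exact min_le_left _ _
  have heδ : e ≤ δ / 2 := by
    rw [hedef]
    exact (min_le_right _ _).trans (min_le_left _ _)
  have heR : R * ((3 * R + 2) * e) * R < 1 := by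
    have h1 : e ≤ 1 / (2 * (R * (3 * R + 2) * R)) := by
      rw [hedef]
      exact (min_le_right _ _).trans (min_le_right _ _)
    rw [le_div_iff₀ (by positivity)] at h1
    nlinarith
  have hc0 : 0 < c := by linarith
  refine ⟨e / c, by positivity, ?_⟩
  intro χ ph hχ hχc hph3 hphc hphn ρ t hρ ht
  have hec : e / c ≤ e := div_le_self he0.le hc1
  have hct : c * |t| ≤ e := by
    have := (le_div_iff₀ hc0).1 ht
    linarith
  have ht1 : |t| ≤ 1 := ht.trans (hec.trans he1)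
  have hphn' : ∀ i z, ‖ph i z - p i‖ ≤ e := fun i z => (hphn i z).trans hec
  have hD : ∀ (t' : ℝ), |t'| = |t| → ∀ z, ‖fderiv ℝ (d.Ha th2 t') z - 1‖ ≤ e := by
    intro t' ht' z
    have h1 := (hc t' z (by rw [ht']; exact ht1)).2
    rw [ht'] at h1
    exact h1.trans hct
  have cH1 : ∀ t', Continuous (d.Ha th t') := fun t' => (ha_cont d sm1 t').continuous
  have cH2 : ∀ t', Continuous (d.Ha th2 t') := fun t' => (ha_cont d sm2 t').continuous
  have cF2 : ∀ t', Continuous (fderiv ℝ (d.Ha th2 t')) := fun t' =>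
    (ha_cont d sm2 t').continuous_fderiv (by simp)
  have cX : Continuous d.X := smX.continuous
  have hBc : IsCompact {s | d.q s ≤ 1} := by
    refine Metric.isCompact_of_isClosed_isBounded
      (isClosed_le smq.continuous continuous_const) ?_
    refine (Metric.isBounded_closedBall (x := (0 : E N)) (r := c1)).subset ?_
    intro z hz
    rw [mem_closedBall_zero_iff]
    have h1 := (hq z).1
    have h2 : d.q z ≤ 1 := hz
    have h3 := norm_nonneg z
    nlinarith
  have hBn : ∀ (t' : ℝ) (s : E N), d.q s ≤ 1 → ‖d.Ha th t' s‖ ≤ c1 := by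
    intro t' s hs
    have h1 := (hq (d.Ha th t' s)).1
    rw [q1] at h1
    have h3 := norm_nonneg (d.Ha th t' s)
    nlinarith
  obtain ⟨r0, hr0⟩ := hχc.isCompact.isBounded.subset_closedBall (0 : E N)
  have hχ0 : ∀ z, r0 < ‖z‖ → χ z = 0 := by
    intro z hz
    by_contra h
    have h1 := hr0 (subset_tsupport χ h)
    rw [mem_closedBall_zero_iff] at h1
    linarith
  -- the integrands of the right hand side
  have kc : ∀ (ρ' t' v : ℝ), |t'| = |t| → Continuous (Function.uncurry fun z s : E N =>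
      kk χ d ρ' t' z s (fun i => ph i z) (fun i => ph i (z + v • d.X s))) := by
    intro ρ' t' v ht'
    exact kk_cont d R e he0.le he1 hRi heR χ hχ ph hph3 hphc hphn' t' cH1 cF2 cX (hD t' ht')
      (hD (-t') (by rw [abs_neg, ht'])) ρ' v
  have kz : ∀ (ρ' t' v : ℝ), |ρ'| = ρ → ∀ s ∈ {s | d.q s ≤ 1}, ∀ z,
      z ∉ Metric.closedBall (0 : E N) (r0 + ρ * c1) →
      kk χ d ρ' t' z s (fun i => ph i z) (fun i => ph i (z + v • d.X s)) = 0 := by
    intro ρ' t' v hρ' s hs z hz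
    rw [mem_closedBall_zero_iff, not_le] at hz
    unfold kk
    rw [hχ0, zero_mul]
    have h1 := hBn (-t') s hs
    have h2 : ‖ρ' • d.Ha th (-t') s‖ ≤ ρ * c1 := by
      rw [norm_smul, Real.norm_eq_abs, hρ']
      exact mul_le_mul_of_nonneg_left h1 hρ.le
    have h3 := norm_sub_norm_le z (ρ' • d.Ha th (-t') s)
    linarith
  have hK : IsCompact (Metric.closedBall (0 : E N) (r0 + ρ * c1)) := isCompact_closedBall _ _
  -- the integrand of the left hand side
  have fc : Continuous (Function.uncurry fun y s : E N => χ y * Fl d ph ρ t y s) := by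
    exact fl_cont d R e he0.le he1 hRi heR χ hχ ph hph3 hphc hphn' t cH2 cF2 (hD t rfl)
      (hD (-t) (abs_neg t)) ρ
  have fz : ∀ s ∈ {s | d.q s ≤ 1}, ∀ y, y ∉ Metric.closedBall (0 : E N) r0 →
      χ y * Fl d ph ρ t y s = 0 := by
    intro s _ y hy
    rw [mem_closedBall_zero_iff, not_le] at hy
    rw [hχ0 y hy, zero_mul]
  have hK0 : IsCompact (Metric.closedBall (0 : E N) r0) := isCompact_closedBall _ _
  have hWs : ∀ s, (ρ * t) • d.X (d.Ha th t s) = ρ • (d.Ha th2 t s - s) := by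
    intro s
    rw [(hL t s).2 ht1, smul_smul]
  have hsub : ∀ Φ : E N → ℝ, ∫ s in {s | d.q s ≤ 1}, Φ (d.Ha th t s) =
      ∫ s in {s | d.q s ≤ 1}, Φ s := by
    intro Φ
    refine sub_int (d.Ha th t) (d.Ha th (-t)) (cH1 t) (cH1 (-t)) (inv1 t) ?_ (hV t).2 _ ?_ Φ
    · intro z
      have := inv1 (-t) z
      rwa [neg_neg] at this
    · intro z
      change d.q _ ≤ 1 ↔ d.q z ≤ 1
      rw [q1]
  -- first representation
  have rep1 : FF χ d ph ρ t = ∫ s in {s | d.q s ≤ 1}, ∫ z,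
      kk χ d ρ t z s (fun i => ph i z) (fun i => ph i (z + (ρ * t) • d.X s)) := by
    rw [← hsub (fun s => ∫ z,
      kk χ d ρ t z s (fun i => ph i z) (fun i => ph i (z + (ρ * t) • d.X s)))]
    unfold FF
    have h1 : ∀ y, χ y * ∫ s in {s | d.q s ≤ 1}, Fl d ph ρ t y s =
        ∫ s in {s | d.q s ≤ 1}, χ y * Fl d ph ρ t y s := fun y => (integral_const_mul _ _).symm
    simp only [h1]
    rw [strip_swap fc hK0 hBc fz]
    refine integral_congr_ae (Eventually.of_forall fun s => ?_)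
    change (∫ y, χ y * Fl d ph ρ t y s) = ∫ z, kk χ d ρ t z (d.Ha th t s) (fun i => ph i z)
      (fun i => ph i (z + (ρ * t) • d.X (d.Ha th t s)))
    rw [← integral_sub_right_eq_self (fun y => χ y * Fl d ph ρ t y s) (ρ • s)]
    refine integral_congr_ae (Eventually.of_forall fun z => ?_)
    change χ (z - ρ • s) * Fl d ph ρ t (z - ρ • s) s = kk χ d ρ t z (d.Ha th t s) (fun i => ph i z)
      (fun i => ph i (z + (ρ * t) • d.X (d.Ha th t s)))
    unfold kk Fl Tw.Dd
    have e1 : z - ρ • s + ρ • s = z := sub_add_cancel _ _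
    have e2 : z - ρ • s + ρ • d.Ha th2 t s = z + (ρ * t) • d.X (d.Ha th t s) := by
      rw [hWs, smul_sub]
      abel
    rw [inv1, neg_neg, ← (hL t s).1, e1, e2]
  -- second representation
  have rep2 : FF χ d ph ρ t = ∫ s in {s | d.q s ≤ 1}, ∫ z,
      kk χ d (-ρ) (-t) z s (fun i => ph i z) (fun i => ph i (z + (ρ * t) • d.X s)) := by
    rw [← hsub (fun s => ∫ z,
      kk χ d (-ρ) (-t) z s (fun i => ph i z) (fun i => ph i (z + (ρ * t) • d.X s)))]
    unfold FF
    have h1 : ∀ y, χ y * ∫ s in {s | d.q s ≤ 1}, Fl d ph ρ t y s =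
        ∫ s in {s | d.q s ≤ 1}, χ y * Fl d ph ρ t y (-s) := by
      intro y
      rw [integral_const_mul]
      congr 1
      have h2 := (Measure.measurePreserving_neg (volume : Measure (E N))).setIntegral_preimage_emb
        (Homeomorph.neg (E N)).measurableEmbedding (fun s => Fl d ph ρ t y s) {s | d.q s ≤ 1}
      have h3 : Neg.neg ⁻¹' {s | d.q s ≤ 1} = {s | d.q s ≤ 1} := by
        ext z
        change d.q (-z) ≤ 1 ↔ d.q z ≤ 1
        rw [qn]
      rw [h3] at h2
      exact h2.symm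
    simp only [h1]
    have fc' : Continuous (Function.uncurry fun y s : E N => χ y * Fl d ph ρ t y (-s)) :=
      fc.comp (continuous_fst.prodMk continuous_snd.neg)
    rw [strip_swap fc' hK0 hBc (fun s hs y hy => fz (-s) (by
      change d.q (-s) ≤ 1
      rw [qn]
      exact hs) y hy)]
    refine integral_congr_ae (Eventually.of_forall fun s => ?_)
    change (∫ y, χ y * Fl d ph ρ t y (-s)) = ∫ z, kk χ d (-ρ) (-t) z (d.Ha th t s)
      (fun i => ph i z) (fun i => ph i (z + (ρ * t) • d.X (d.Ha th t s)))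
    rw [← integral_add_right_eq_self (fun y => χ y * Fl d ph ρ t y (-s)) (ρ • d.Ha th2 t s)]
    refine integral_congr_ae (Eventually.of_forall fun z => ?_)
    change χ (z + ρ • d.Ha th2 t s) * Fl d ph ρ t (z + ρ • d.Ha th2 t s) (-s) =
      kk χ d (-ρ) (-t) z (d.Ha th t s) (fun i => ph i z)
        (fun i => ph i (z + (ρ * t) • d.X (d.Ha th t s)))
    unfold kk Fl Tw.Dd
    have e1 : z + ρ • d.Ha th2 t s + ρ • (-s) = z + (ρ * t) • d.X (d.Ha th t s) := by
      rw [hWs, smul_sub, smul_neg]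
      abel
    have e2 : z + ρ • d.Ha th2 t s + ρ • (-d.Ha th2 t s) = z := by
      rw [smul_neg]
      abel
    have e3 : z - (-ρ) • d.Ha th2 t s = z + ρ • d.Ha th2 t s := by
      rw [neg_smul, sub_neg_eq_add]
    rw [odd2, ha_odd d sm2 odd2, ha_odd d sm2 odd2, e1, e2]
    simp only [neg_neg]
    rw [inv1, ← (hL t s).1, e3]
    congr 1
    refine hS (fun i => ph i z) (fun i => ph i (z + (ρ * t) • d.X (d.Ha th t s)))
      (fderiv ℝ (d.Ha th2 (-t)) (d.Ha th2 t s)) (fderiv ℝ (d.Ha th2 t) s) (hph3 _) (hph3 _) ?_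
      (ha_chain' d sm2 inv2 t s) (ha_chain d sm2 inv2 t s) ?_ ?_
    · intro i
      have h2 : ph i z = (ph i z - p i) + p i := by abel
      calc ‖ph i z‖ = ‖(ph i z - p i) + p i‖ := by rw [← h2]
        _ ≤ ‖ph i z - p i‖ + ‖p i‖ := norm_add_le _ _
        _ ≤ R := by linarith [hphn' i z, hRi i]
    · exact (hD (-t) (abs_neg t) _).trans (by linarith)
    · intro i
      have h3 : ph i (z + (ρ * t) • d.X (d.Ha th t s)) - ph i z =
          (ph i (z + (ρ * t) • d.X (d.Ha th t s)) - p i) - (ph i z - p i) := by abel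
      rw [h3]
      refine (norm_sub_le _ _).trans ?_
      linarith [hphn' i (z + (ρ * t) • d.X (d.Ha th t s)), hphn' i z]
  -- sum
  have k1 := kc ρ t (ρ * t) rfl
  have k2 := kc (-ρ) (-t) (ρ * t) (abs_neg t)
  have z1 := kz ρ t (ρ * t) (abs_of_pos hρ)
  have z2 := kz (-ρ) (-t) (ρ * t) (by rw [abs_neg, abs_of_pos hρ])
  have hsum : ∫ s in {s | d.q s ≤ 1}, ∫ z,
      (kk χ d ρ t z s (fun i => ph i z) (fun i => ph i (z + (ρ * t) • d.X s)) +
        kk χ d (-ρ) (-t) z s (fun i => ph i z) (fun i => ph i (z + (ρ * t) • d.X s))) =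
      (∫ s in {s | d.q s ≤ 1}, ∫ z,
        kk χ d ρ t z s (fun i => ph i z) (fun i => ph i (z + (ρ * t) • d.X s))) +
      ∫ s in {s | d.q s ≤ 1}, ∫ z,
        kk χ d (-ρ) (-t) z s (fun i => ph i z) (fun i => ph i (z + (ρ * t) • d.X s)) := by
    rw [← integral_add (strip_on k1 hK hBc z1) (strip_on k2 hK hBc z2)]
    refine setIntegral_congr_fun hBc.measurableSet fun s hs => ?_
    exact integral_add (strip_pt k1 hK z1 s hs) (strip_pt k2 hK z2 s hs)
  rw [hsum, ← rep1, ← rep2]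
  ring

end Pool.Agent.Helper89.RZ
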